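import Mathlib

/-!
# Generic matrices and their kernel vectors
-/

namespace ZEQ

open Matrix

/-- The kernel vector of an `r × (r+1)` matrix: its signed maximal minors. -/
noncomputable def kerVec {r : ℕ} {R : Type*} [CommRing R] (U : Matrix (Fin r) (Fin (r + 1)) R)
    (j : Fin (r + 1)) : R :=
  (-1) ^ (j : ℕ) * (U.submatrix id j.succAbove).det

/-- The product of a row with the kernel vector is a determinant. -/
theorem dotProduct_kerVec {r : ℕ} {R : Type*} [CommRing R] (U : Matrix (Fin r) (Fin (r + 1)) R)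
    (μ : Fin (r + 1) → R) :
    ∑ j, μ j * kerVec U j = (Matrix.of (Fin.cons μ U : Fin (r + 1) → Fin (r + 1) → R)).det := by
  rw [Matrix.det_succ_row_zero]
  refine Finset.sum_congr rfl fun j _ => ?_
  rw [kerVec, Matrix.of_apply, Fin.cons_zero]
  have : ((Matrix.of (Fin.cons μ U : Fin (r + 1) → Fin (r + 1) → R)).submatrix Fin.succ
      j.succAbove) = U.submatrix id j.succAbove := by
    ext a b
    simp
  rw [this]; ring

theorem mulVec_kerVec {r : ℕ} {R : Type*} [CommRing R] (U : Matrix (Fin r) (Fin (r + 1)) R) :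
    U *ᵥ kerVec U = 0 := by
  funext i
  rw [Matrix.mulVec, dotProduct, dotProduct_kerVec, Pi.zero_apply]
  refine Matrix.det_zero_of_row_eq (i := 0) (j := i.succ) (Fin.succ_ne_zero i).symm ?_
  funext b
  simp

theorem map_kerVec {r : ℕ} {R S : Type*} [CommRing R] [CommRing S] (φ : R →+* S)
    (U : Matrix (Fin r) (Fin (r + 1)) R) (j : Fin (r + 1)) :
    φ (kerVec U j) = kerVec (U.map φ) j := by
  rw [kerVec, kerVec, map_mul, map_pow, map_neg, map_one, RingHom.map_det]
  rfl

/-- For a matrix with algebraically independent entries no nonzero row over the ground field kills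
the kernel vector. -/
theorem sum_mul_kerVec_ne_zero {r : ℕ} {K L : Type*} [Field K] [Field L] [Algebra K L]
    (U : Matrix (Fin r) (Fin (r + 1)) L)
    (hU : AlgebraicIndependent K (fun p : Fin r × Fin (r + 1) => U p.1 p.2))
    (μ : Fin (r + 1) → K) (hμ : μ ≠ 0) :
    ∑ j, algebraMap K L (μ j) * kerVec U j ≠ 0 := by
  classical
  obtain ⟨j₀, hj₀⟩ := Function.ne_iff.mp hμ
  let V : Matrix (Fin r) (Fin (r + 1)) (MvPolynomial (Fin r × Fin (r + 1)) K) :=
    Matrix.of fun i j => MvPolynomial.X (i, j)
  have hV : ∑ j, MvPolynomial.C (μ j) * kerVec V j ≠ 0 := by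
    intro h0
    let ev : MvPolynomial (Fin r × Fin (r + 1)) K →+* K :=
      MvPolynomial.eval fun p => if p.2 = j₀.succAbove p.1 then 1 else 0
    have h1 := congrArg ev h0
    rw [map_sum, map_zero] at h1
    simp only [map_mul, map_kerVec] at h1
    have hVe : V.map ev = Matrix.of fun i j => if j = j₀.succAbove i then (1 : K) else 0 := by
      ext i j
      simp [V, ev]
    rw [hVe, Finset.sum_eq_single j₀] at h1
    · have h2 : (Matrix.of fun i j => if j = j₀.succAbove i then (1 : K) else 0).submatrix id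
          j₀.succAbove = (1 : Matrix (Fin r) (Fin r) K) := by
        ext a b
        rw [Matrix.submatrix_apply, Matrix.of_apply, Matrix.one_apply]
        by_cases hab : a = b
        · subst hab; simp
        · rw [if_neg, if_neg hab]
          intro h
          exact hab (Fin.succAbove_right_injective h).symm
      rw [kerVec, h2, Matrix.det_one] at h1
      simp only [ev, MvPolynomial.eval_C, mul_one] at h1
      have h3 : ((-1 : K)) ^ (j₀ : ℕ) ≠ 0 := pow_ne_zero _ (by simp)
      exact hj₀ (by simpa using (mul_eq_zero.mp h1).resolve_right h3)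
    · intro j _ hj
      have h2 : ((Matrix.of fun i j => if j = j₀.succAbove i then (1 : K) else 0).submatrix id
          j.succAbove).det = 0 := by
        obtain ⟨b, hb⟩ := Fin.exists_succAbove_eq (Ne.symm hj)
        refine Matrix.det_eq_zero_of_column_eq_zero b fun a => ?_
        rw [Matrix.submatrix_apply, Matrix.of_apply, hb, if_neg]
        exact (Fin.succAbove_ne j₀ _).symm
      rw [kerVec, h2, mul_zero, mul_zero]
    · intro h; exact absurd (Finset.mem_univ _) h
  intro h0
  apply hV
  have hinj : Function.Injective (MvPolynomial.aeval (R := K)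
      (fun p : Fin r × Fin (r + 1) => U p.1 p.2)) := hU
  apply hinj
  rw [map_zero, map_sum, ← h0]
  refine Finset.sum_congr rfl fun j _ => ?_
  rw [map_mul, MvPolynomial.algHom_C]
  congr 1
  have h1 := map_kerVec (MvPolynomial.aeval (R := K)
      (fun p : Fin r × Fin (r + 1) => U p.1 p.2)).toRingHom V j
  have h2 : V.map (MvPolynomial.aeval (R := K)
      (fun p : Fin r × Fin (r + 1) => U p.1 p.2)).toRingHom = U := by
    ext i j
    simp [V]
  rw [h2] at h1
  exact h1

/-- The kernel vector of `U B`, `U` generic, `B` invertible over the ground field. -/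
theorem exists_kernel_vector {r : ℕ} {K L : Type*} [Field K] [Field L] [Algebra K L]
    (U : Matrix (Fin r) (Fin (r + 1)) L)
    (hU : AlgebraicIndependent K (fun p : Fin r × Fin (r + 1) => U p.1 p.2))
    (B : Matrix (Fin (r + 1)) (Fin (r + 1)) K) (hB : IsUnit B.det) :
    ∃ w : Fin (r + 1) → L, (U * B.map (algebraMap K L)) *ᵥ w = 0 ∧
      ∀ lam : Fin (r + 1) → K, lam ≠ 0 → ∑ j, algebraMap K L (lam j) * w j ≠ 0 := by
  classical
  refine ⟨(B⁻¹).map (algebraMap K L) *ᵥ kerVec U, ?_, ?_⟩
  · rw [Matrix.mulVec_mulVec, Matrix.mul_assoc, ← Matrix.map_mul, Matrix.mul_nonsing_inv B hB]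
    rw [Matrix.map_one _ (map_zero _) (map_one _), Matrix.mul_one]
    exact mulVec_kerVec U
  · intro lam hlam
    have h1 : ∑ j, algebraMap K L (lam j) * ((B⁻¹).map (algebraMap K L) *ᵥ kerVec U) j =
        ∑ j, algebraMap K L ((lam ᵥ* B⁻¹) j) * kerVec U j := by
      have e1 : ∑ j, algebraMap K L (lam j) * ((B⁻¹).map (algebraMap K L) *ᵥ kerVec U) j =
          (fun j => algebraMap K L (lam j)) ⬝ᵥ ((B⁻¹).map (algebraMap K L) *ᵥ kerVec U) := rfl
      rw [e1, Matrix.dotProduct_mulVec]
      refine Finset.sum_congr rfl fun j _ => ?_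
      congr 1
      simp only [Matrix.vecMul, dotProduct, Matrix.map_apply, map_sum, map_mul]
    rw [h1]
    refine sum_mul_kerVec_ne_zero U hU _ ?_
    intro h0
    apply hlam
    have h2 : (lam ᵥ* B⁻¹) ᵥ* B = 0 := by rw [h0, Matrix.zero_vecMul]
    rw [Matrix.vecMul_vecMul, Matrix.nonsing_inv_mul B hB, Matrix.vecMul_one] at h2
    exact h2

end ZEQ
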