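import Pool.Agent.ZEQ.Had

/-!
# The implicit function theorem for formal power series
-/

namespace ZEQ

open MvPowerSeries

variable {σ τ υ : Type*} {L : Type*} [Field L]

theorem constantCoeff_subst_eq [Finite σ] {θ : σ → MvPowerSeries τ L}
    (hθ : ∀ i, constantCoeff (θ i) = 0) (h : MvPowerSeries σ L) :
    constantCoeff (subst θ h) = constantCoeff h := by
  have hs : HasSubst θ := hasSubst_of_constantCoeff_zero hθ
  have h1 : h = (h - C (constantCoeff h)) + C (constantCoeff h) := by ring
  conv_lhs => rw [h1]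
  rw [subst_add hs, subst_C' hθ, map_add, constantCoeff_subst' hθ _ (by simp)]
  simp

/-- Fixed point theorem for contracting maps on tuples of power series. -/
theorem exists_fixedPoint {ι : Type*} (T : (ι → MvPowerSeries τ L) → (ι → MvPowerSeries τ L))
    (hT0 : ∀ g, (∀ j, constantCoeff (g j) = 0) → ∀ j, constantCoeff (T g j) = 0)
    (hT : ∀ (k : ℕ) (g g' : ι → MvPowerSeries τ L), (∀ j, constantCoeff (g j) = 0) →
      (∀ j, constantCoeff (g' j) = 0) → (∀ j, (k : ℕ∞) ≤ (g j - g' j).order) →
      ∀ j, ((k + 1 : ℕ) : ℕ∞) ≤ (T g j - T g' j).order) :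
    ∃ g : ι → MvPowerSeries τ L, (∀ j, constantCoeff (g j) = 0) ∧ T g = g := by
  let s : ℕ → (ι → MvPowerSeries τ L) := fun k => T^[k] 0
  have hs0 : s 0 = 0 := rfl
  have hs : ∀ k, s (k + 1) = T (s k) := fun k => by
    simp only [s, Function.iterate_succ_apply']
  have hc : ∀ k j, constantCoeff (s k j) = 0 := by
    intro k
    induction k with
    | zero => intro j; rw [hs0]; simp
    | succ k ih => intro j; rw [hs]; exact hT0 _ ih j
  have hd : ∀ (k : ℕ) (j : ι), (k : ℕ∞) ≤ (s (k + 1) j - s k j).order := by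
    intro k
    induction k with
    | zero => intro j; simp
    | succ k ih =>
      intro j
      have h := hT k (s (k + 1)) (s k) (hc _) (hc _) ih j
      rw [← hs (k + 1), ← hs k] at h
      exact h
  have hd' : ∀ (k l : ℕ) (j : ι), k ≤ l → (k : ℕ∞) ≤ (s l j - s k j).order := by
    intro k l j hkl
    induction l, hkl using Nat.le_induction with
    | base => simp
    | succ l hkl ih =>
      have : s (l + 1) j - s k j = (s (l + 1) j - s l j) + (s l j - s k j) := by ring
      rw [this]
      refine le_trans (le_min ?_ ih) min_order_le_add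
      exact le_trans (by exact_mod_cast hkl) (hd l j)
  let g : ι → MvPowerSeries τ L := fun j d => coeff d (s (d.degree + 1) j)
  have hg : ∀ j d, coeff d (g j) = coeff d (s (d.degree + 1) j) := fun j d => rfl
  have hgs : ∀ (k : ℕ) (j : ι), (k : ℕ∞) ≤ (g j - s k j).order := by
    intro k j
    refine nat_le_order fun d hdk => ?_
    rw [map_sub, hg]
    have h1 : coeff d (s k j - s (d.degree + 1) j) = 0 := by
      apply coeff_of_lt_order
      refine lt_of_lt_of_le ?_ (hd' (d.degree + 1) k j hdk)
      exact_mod_cast Nat.lt_succ_self _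
    rw [map_sub] at h1
    rw [← sub_eq_zero.mp h1, sub_self]
  have hgc : ∀ j, constantCoeff (g j) = 0 := by
    intro j
    have h1 := hgs 1 j
    have h2 : constantCoeff (g j - s 1 j) = 0 :=
      one_le_order_iff_constCoeff_eq_zero.mp (by exact_mod_cast h1)
    rw [map_sub, hc, sub_zero] at h2
    exact h2
  refine ⟨g, hgc, ?_⟩
  funext j
  have h1 : ∀ k : ℕ, ((k + 1 : ℕ) : ℕ∞) ≤ (T g j - g j).order := by
    intro k
    have h2 := hT k g (s k) hgc (hc k) (hgs k) j
    have h3 := hgs (k + 1) j
    have : T g j - g j = (T g j - T (s k) j) + -(g j - s (k + 1) j) := by rw [hs]; ring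
    rw [this]
    refine le_trans (le_min h2 ?_) min_order_le_add
    rw [order_neg]; exact h3
  have h4 : T g j - g j = 0 := by
    ext d
    rw [map_zero]
    apply coeff_of_lt_order
    refine lt_of_lt_of_le ?_ (h1 d.degree)
    exact_mod_cast Nat.lt_succ_self _
  exact sub_eq_zero.mp h4

theorem le_order_matrix_mul {ι : Type*} [Fintype ι] {k : ℕ} (M : ι → MvPowerSeries τ L)
    (g : ι → MvPowerSeries τ L) (hg : ∀ j, (k : ℕ∞) ≤ (g j).order) :
    (k : ℕ∞) ≤ (∑ j, M j * g j).order := by
  refine nat_le_order fun d hd => ?_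
  rw [map_sum]
  refine Finset.sum_eq_zero fun j _ => ?_
  apply coeff_of_lt_order
  refine lt_of_lt_of_le (by exact_mod_cast hd) (le_trans (hg j) (le_trans ?_ le_order_mul))
  exact le_add_self

theorem le_order_matrix_mul_succ {ι : Type*} [Fintype ι] {k : ℕ} (M : ι → MvPowerSeries τ L)
    (hM : ∀ j, constantCoeff (M j) = 0)
    (g : ι → MvPowerSeries τ L) (hg : ∀ j, (k : ℕ∞) ≤ (g j).order) :
    ((k + 1 : ℕ) : ℕ∞) ≤ (∑ j, M j * g j).order := by
  refine nat_le_order fun d hd => ?_
  rw [map_sum]
  refine Finset.sum_eq_zero fun j _ => ?_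
  apply coeff_of_lt_order
  refine lt_of_lt_of_le (b := ((k + 1 : ℕ) : ℕ∞)) (by exact_mod_cast hd)
    (le_trans ?_ le_order_mul)
  have h1 : (1 : ℕ∞) ≤ (M j).order := one_le_order_iff_constCoeff_eq_zero.mpr (hM j)
  calc ((k + 1 : ℕ) : ℕ∞) = 1 + (k : ℕ∞) := by push_cast; ring
    _ ≤ _ := add_le_add h1 (hg j)

/-- **Implicit function theorem.**  The equations `F_i (X, Y) = 0`, `i ∈ ι`, with invertible
Jacobian matrix with respect to `Y` at the origin, have a solution `Y = g(X)`. -/
theorem exists_implicit {τ ι : Type} [Fintype τ] [Fintype ι] [DecidableEq ι]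
    (F : ι → MvPowerSeries (τ ⊕ ι) L)
    (hF : ∀ i, constantCoeff (F i) = 0)
    (hJ : (Matrix.of fun i j => constantCoeff (pderiv L (Sum.inr j) (F i))).det ≠ 0) :
    ∃ g : ι → MvPowerSeries τ L, (∀ j, constantCoeff (g j) = 0) ∧
      ∀ i, subst (Sum.elim (fun a => (X a : MvPowerSeries τ L)) g) (F i) = 0 := by
  classical
  set J : Matrix ι ι L := Matrix.of fun i j => constantCoeff (pderiv L (Sum.inr j) (F i)) with hJdef
  choose H hH1 hH2 using fun i => exists_hadamard' (F i)
  let E : (ι → MvPowerSeries τ L) → (τ ⊕ ι → MvPowerSeries τ L) := fun g =>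
    Sum.elim (fun a => (X a : MvPowerSeries τ L)) g
  have hE : ∀ g, (∀ j, constantCoeff (g j) = 0) → ∀ k, constantCoeff (E g k) = 0 := by
    rintro g hg (a | j)
    · simp [E]
    · exact hg j
  let T : (ι → MvPowerSeries τ L) → (ι → MvPowerSeries τ L) := fun g i =>
    g i - ∑ j, C (J⁻¹ i j) * subst (E g) (F j)
  have hJunit : IsUnit J.det := isUnit_iff_ne_zero.mpr hJ
  have hT0 : ∀ g, (∀ j, constantCoeff (g j) = 0) → ∀ j, constantCoeff (T g j) = 0 := by
    intro g hg j
    simp only [T, map_sub, map_sum, map_mul, hg j, zero_sub, neg_eq_zero]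
    refine Finset.sum_eq_zero fun k _ => ?_
    rw [constantCoeff_subst' (hE g hg) _ (hF k), mul_zero]
  have hT : ∀ (k : ℕ) (g g' : ι → MvPowerSeries τ L), (∀ j, constantCoeff (g j) = 0) →
      (∀ j, constantCoeff (g' j) = 0) → (∀ j, (k : ℕ∞) ≤ (g j - g' j).order) →
      ∀ j, ((k + 1 : ℕ) : ℕ∞) ≤ (T g j - T g' j).order := by
    intro k g g' hg hg' hk i
    have h1 : ∀ j, subst (E g) (F j) - subst (E g') (F j) =
        ∑ l, subst (Sum.elim (E g) (E g')) (H j (Sum.inr l)) * (g l - g' l) := by
      intro j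
      have := hH1 j τ (E g) (E g') (hE g hg) (hE g' hg')
      rw [this, Fintype.sum_sum_type]
      have h2 : ∑ a : τ, (E g (Sum.inl a) - E g' (Sum.inl a)) *
          subst (Sum.elim (E g) (E g')) (H j (Sum.inl a)) = 0 := by
        refine Finset.sum_eq_zero fun a _ => ?_
        simp [E]
      rw [h2, zero_add]
      refine Finset.sum_congr rfl fun l _ => ?_
      simp only [E, Sum.elim_inr]; ring
    have hcc : ∀ j l, constantCoeff (subst (Sum.elim (E g) (E g')) (H j (Sum.inr l))) = J j l := by
      intro j l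
      have hc : ∀ k, constantCoeff ((Sum.elim (E g) (E g')) k) = 0 := by
        rintro (k | k)
        · exact hE g hg k
        · exact hE g' hg' k
      have hc' : ∀ k, constantCoeff ((Sum.elim (E g) (E g)) k) = 0 := by
        rintro (k | k)
        · exact hE g hg k
        · exact hE g hg k
      rw [constantCoeff_subst_eq hc, ← constantCoeff_subst_eq hc', hH2 j τ (E g) (hE g hg),
        constantCoeff_subst_eq (hE g hg)]
      rfl
    have h2 : T g i - T g' i = ∑ l, (-∑ j, C (J⁻¹ i j) *
        (subst (Sum.elim (E g) (E g')) (H j (Sum.inr l)) - C (J j l))) * (g l - g' l) := by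
      have e1 : T g i - T g' i = (g i - g' i) - ∑ j, C (J⁻¹ i j) *
          (subst (E g) (F j) - subst (E g') (F j)) := by
        simp only [T, mul_sub, Finset.sum_sub_distrib]; ring
      have e2 : g i - g' i = ∑ l, (∑ j, C (J⁻¹ i j) * C (J j l)) * (g l - g' l) := by
        have : ∀ l, ∑ j, (C (J⁻¹ i j) * C (J j l) : MvPowerSeries τ L) =
            C ((J⁻¹ * J) i l) := by
          intro l
          rw [Matrix.mul_apply, map_sum]
          exact Finset.sum_congr rfl fun j _ => (map_mul _ _ _).symm
        simp only [this]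
        rw [Matrix.nonsing_inv_mul J hJunit, Finset.sum_eq_single i]
        · simp
        · intro l _ hl
          rw [Matrix.one_apply_ne (Ne.symm hl)]; simp
        · intro h; exact absurd (Finset.mem_univ _) h
      have e3 : ∑ j, C (J⁻¹ i j) * (subst (E g) (F j) - subst (E g') (F j)) =
          ∑ l, (∑ j, C (J⁻¹ i j) * subst (Sum.elim (E g) (E g')) (H j (Sum.inr l))) *
            (g l - g' l) := by
        simp only [h1, Finset.mul_sum, Finset.sum_mul]
        rw [Finset.sum_comm]
        refine Finset.sum_congr rfl fun l _ => Finset.sum_congr rfl fun j _ => ?_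
        ring
      rw [e1, e2, e3, ← Finset.sum_sub_distrib]
      refine Finset.sum_congr rfl fun l _ => ?_
      rw [← sub_mul]
      congr 1
      rw [← Finset.sum_sub_distrib, ← Finset.sum_neg_distrib]
      refine Finset.sum_congr rfl fun j _ => ?_
      ring
    rw [h2]
    refine le_order_matrix_mul_succ _ ?_ _ hk
    intro l
    simp only [map_neg, map_sum, map_mul, map_sub, hcc]
    simp
  obtain ⟨g, hg, hTg⟩ := exists_fixedPoint T hT0 hT
  refine ⟨g, hg, ?_⟩
  have h1 : ∀ i, ∑ j, C (J⁻¹ i j) * subst (E g) (F j) = 0 := by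
    intro i
    have := congrFun hTg i
    simpa [T] using this
  intro i
  have h2 : ∑ k, C (J i k) * ∑ j, C (J⁻¹ k j) * subst (E g) (F j) = 0 := by
    refine Finset.sum_eq_zero fun k _ => ?_
    rw [h1 k, mul_zero]
  have h3 : ∑ k, C (J i k) * ∑ j, C (J⁻¹ k j) * subst (E g) (F j) =
      ∑ j, C ((J * J⁻¹) i j) * subst (E g) (F j) := by
    simp only [Finset.mul_sum]
    rw [Finset.sum_comm]
    refine Finset.sum_congr rfl fun j _ => ?_
    rw [Matrix.mul_apply, map_sum, Finset.sum_mul]
    refine Finset.sum_congr rfl fun k _ => ?_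
    rw [map_mul]; ring
  rw [h3, Matrix.mul_nonsing_inv J hJunit] at h2
  rw [Finset.sum_eq_single i] at h2
  · simpa using h2
  · intro j _ hj
    rw [Matrix.one_apply_ne (Ne.symm hj)]; simp
  · intro h; exact absurd (Finset.mem_univ _) h

end ZEQ
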