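import Mathlib

/-!
# Chain rule for the substitution of formal power series
-/

namespace ZEQ

open MvPowerSeries

variable {σ τ : Type*} {L : Type*} [Field L]

/-- Two additive maps between power series rings which agree on polynomials and lower the order by
at most one are equal. -/
theorem addHom_ext_of_order [Finite σ] {D1 D2 : MvPowerSeries σ L →+ MvPowerSeries τ L}
    (hp : ∀ p : MvPolynomial σ L,
      D1 (p : MvPowerSeries σ L) = D2 (p : MvPowerSeries σ L))
    (h1 : ∀ (N : ℕ) (h : MvPowerSeries σ L), ((N + 1 : ℕ) : ℕ∞) ≤ h.order →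
      (N : ℕ∞) ≤ (D1 h).order)
    (h2 : ∀ (N : ℕ) (h : MvPowerSeries σ L), ((N + 1 : ℕ) : ℕ∞) ≤ h.order →
      (N : ℕ∞) ≤ (D2 h).order) : D1 = D2 := by
  ext h d
  set N : ℕ := d.degree + 1 with hN
  set q : MvPowerSeries σ L :=
    ((h.truncTotal (N + 1) : MvPolynomial σ L) : MvPowerSeries σ L) with hq
  have hr : ((N + 1 : ℕ) : ℕ∞) ≤ (h - q).order := by
    refine nat_le_order fun e he => ?_
    rw [map_sub, hq, MvPolynomial.coeff_coe, coeff_truncTotal _ he, sub_self]
  have e1 : coeff d (D1 (h - q)) = 0 := by
    apply coeff_of_lt_order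
    refine lt_of_lt_of_le ?_ (h1 N _ hr)
    rw [hN]; exact_mod_cast Nat.lt_succ_self _
  have e2 : coeff d (D2 (h - q)) = 0 := by
    apply coeff_of_lt_order
    refine lt_of_lt_of_le ?_ (h2 N _ hr)
    rw [hN]; exact_mod_cast Nat.lt_succ_self _
  have hh : h = (h - q) + q := by ring
  rw [hh, map_add, map_add, map_add, map_add, e1, e2, hp]

theorem le_order_subst' [Finite σ] {θ : σ → MvPowerSeries τ L} (hθ : ∀ i, constantCoeff (θ i) = 0)
    (h : MvPowerSeries σ L) : h.order ≤ (subst θ h).order := by
  have hs : HasSubst θ := hasSubst_of_constantCoeff_zero hθ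
  refine le_trans ?_ (le_order_subst hs h)
  have : (1 : ℕ∞) ≤ ⨅ i, (θ i).order :=
    le_iInf fun i => one_le_order_iff_constCoeff_eq_zero.mpr (hθ i)
  calc h.order = 1 * h.order := (one_mul _).symm
    _ ≤ _ := mul_le_mul_left this _

theorem le_order_pderiv (i : σ) (h : MvPowerSeries σ L) {N : ℕ}
    (hN : ((N + 1 : ℕ) : ℕ∞) ≤ h.order) : (N : ℕ∞) ≤ (pderiv L i h).order := by
  refine nat_le_order fun d hd => ?_
  rw [coeff_pderiv, coeff_of_lt_order, zero_mul]
  refine lt_of_lt_of_le ?_ hN
  rw [map_add, Finsupp.degree_single]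
  exact_mod_cast Nat.succ_lt_succ hd

theorem subst_zero' [Finite σ] {θ : σ → MvPowerSeries τ L}
    (hθ : ∀ i, constantCoeff (θ i) = 0) :
    subst θ (0 : MvPowerSeries σ L) = 0 := by
  have hs : HasSubst θ := hasSubst_of_constantCoeff_zero hθ
  rw [← substAlgHom_apply (R := L) hs, map_zero]

theorem subst_one' [Finite σ] {θ : σ → MvPowerSeries τ L}
    (hθ : ∀ i, constantCoeff (θ i) = 0) :
    subst θ (1 : MvPowerSeries σ L) = 1 := by
  have hs : HasSubst θ := hasSubst_of_constantCoeff_zero hθ
  rw [← substAlgHom_apply (R := L) hs, map_one]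

theorem subst_C' [Finite σ] {θ : σ → MvPowerSeries τ L}
    (hθ : ∀ i, constantCoeff (θ i) = 0) (r : L) :
    subst θ (C r : MvPowerSeries σ L) = C r := by
  have hs : HasSubst θ := hasSubst_of_constantCoeff_zero hθ
  rw [← substAlgHom_apply (R := L) hs]
  exact (substAlgHom (R := L) hs).commutes r

/-- **Chain rule.** -/
theorem pderiv_subst [Fintype σ] [Finite τ] {θ : σ → MvPowerSeries τ L} (hθ : ∀ i, constantCoeff (θ i) = 0)
    (a : τ) (h : MvPowerSeries σ L) :
    pderiv L a (subst θ h) = ∑ i, subst θ (pderiv L i h) * pderiv L a (θ i) := by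
  have hs : HasSubst θ := hasSubst_of_constantCoeff_zero hθ
  let D1 : MvPowerSeries σ L →+ MvPowerSeries τ L :=
    ((pderiv L a : Derivation L (MvPowerSeries τ L) (MvPowerSeries τ L)).toLinearMap.toAddMonoidHom).comp
      ((substAlgHom hs : MvPowerSeries σ L →ₐ[L] MvPowerSeries τ L).toRingHom.toAddMonoidHom)
  let D2 : MvPowerSeries σ L →+ MvPowerSeries τ L :=
    { toFun := fun h => ∑ i, subst θ (pderiv L i h) * pderiv L a (θ i)
      map_zero' := by
        refine Finset.sum_eq_zero fun i _ => ?_
        rw [map_zero, subst_zero' hθ, zero_mul]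
      map_add' := fun x y => by
        rw [← Finset.sum_add_distrib]
        refine Finset.sum_congr rfl fun i _ => ?_
        rw [map_add, subst_add hs, add_mul] }
  have hD1 : ∀ h, D1 h = pderiv L a (subst θ h) := fun h => by
    change pderiv L a (substAlgHom (R := L) hs h) = _
    rw [substAlgHom_apply]
  have hD2 : ∀ h, D2 h = ∑ i, subst θ (pderiv L i h) * pderiv L a (θ i) := fun h => rfl
  have key : D1 = D2 := by
    refine addHom_ext_of_order ?_ ?_ ?_
    · intro p
      rw [hD1, hD2]
      induction p using MvPolynomial.induction_on with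
      | C r =>
        rw [MvPolynomial.coe_C, subst_C' hθ, pderiv_C]
        refine (Finset.sum_eq_zero fun i _ => ?_).symm
        rw [pderiv_C, subst_zero' hθ, zero_mul]
      | add p q hp hq =>
        rw [MvPolynomial.coe_add]
        rw [← hD1, ← hD2, map_add, map_add, hD1, hD1, hD2, hD2, hp, hq]
      | mul_X p i hp =>
        rw [MvPolynomial.coe_mul, MvPolynomial.coe_X]
        rw [subst_mul hs, subst_X hs, Derivation.leibniz, hp]
        simp only [Derivation.leibniz, smul_eq_mul]
        simp only [subst_add hs, subst_mul hs, subst_X hs]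
        rw [Finset.mul_sum]
        simp only [add_mul]
        rw [Finset.sum_add_distrib]
        congr 1
        · rw [Finset.sum_eq_single i]
          · rw [pderiv_X_self, subst_one' hθ, mul_one]
          · intro j _ hj
            rw [pderiv_X_of_ne (Ne.symm hj), subst_zero' hθ, mul_zero, zero_mul]
          · intro h; exact absurd (Finset.mem_univ i) h
        · exact Finset.sum_congr rfl fun j _ => by ring
    · intro N h hN
      rw [hD1]
      exact le_order_pderiv a _ (le_trans hN (le_order_subst' hθ h))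
    · intro N h hN
      rw [hD2]
      refine le_order fun d hd => ?_
      rw [map_sum]
      refine Finset.sum_eq_zero fun i _ => ?_
      refine coeff_of_lt_order (lt_of_lt_of_le hd ?_)
      refine le_trans ?_ le_order_mul
      refine le_trans (le_trans (le_order_pderiv i h hN) (le_order_subst' hθ _)) ?_
      exact le_self_add
  have := DFunLike.congr_fun key h
  rw [hD1, hD2] at this
  exact this

end ZEQ
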