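import Pool.Agent.ZEQ.Rank

/-!
# Powers of the maximal ideal, Hadamard quotients
-/

namespace ZEQ

open MvPowerSeries

variable {σ τ υ : Type*} {L : Type*} [Field L]

/-- A power series of order at least `k` lies in the `k`-th power of the maximal ideal. -/
theorem mem_pow_of_le_order [Finite σ] {k : ℕ} {f : MvPowerSeries σ L}
    (h : (k : ℕ∞) ≤ f.order) :
    f ∈ (Ideal.span (Set.range (X : σ → MvPowerSeries σ L))) ^ k := by
  classical
  cases nonempty_fintype σ
  let _ : LinearOrder σ := LinearOrder.lift' (Fintype.equivFin σ) (Fintype.equivFin σ).injective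
  induction k generalizing f with
  | zero => simp
  | succ k ih =>
    let g : σ → MvPowerSeries σ L := fun j e =>
      if ∀ i < j, e i = 0 then coeff (e + Finsupp.single j 1) f else 0
    have hg : ∀ j e, coeff e (g j) =
        if ∀ i < j, e i = 0 then coeff (e + Finsupp.single j 1) f else 0 := fun j e => rfl
    have hsum : f = ∑ j, X j * g j := by
      ext d
      rw [map_sum]
      have hcoeff : ∀ j, coeff d (X j * g j) =
          if d j ≠ 0 ∧ ∀ i < j, d i = 0 then coeff d f else 0 := by
        intro j
        rw [X_def, coeff_monomial_mul]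
        by_cases hd : Finsupp.single j 1 ≤ d
        · rw [if_pos hd, one_mul, hg, tsub_add_cancel_of_le hd]
          have hdj : d j ≠ 0 := by
            have := hd j
            rw [Finsupp.single_eq_same] at this
            exact Nat.one_le_iff_ne_zero.mp this
          have hiff : (∀ i < j, (d - Finsupp.single j 1 : σ →₀ ℕ) i = 0) ↔
              (d j ≠ 0 ∧ ∀ i < j, d i = 0) := by
            constructor
            · intro H
              refine ⟨hdj, fun i hi => ?_⟩
              have := H i hi
              rwa [Finsupp.tsub_apply, Finsupp.single_eq_of_ne (ne_of_lt hi), tsub_zero] at this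
            · rintro ⟨_, H⟩ i hi
              rw [Finsupp.tsub_apply, H i hi, zero_tsub]
          exact if_congr hiff rfl rfl
        · rw [if_neg hd]
          have hdj : ¬ (d j ≠ 0 ∧ ∀ i < j, d i = 0) := by
            rintro ⟨hj, _⟩
            apply hd
            rw [Finsupp.single_le_iff]
            exact Nat.one_le_iff_ne_zero.mpr hj
          rw [if_neg hdj]
      simp only [hcoeff]
      by_cases hd : d = 0
      · have h0 : coeff d f = 0 := by
          apply coeff_of_lt_order
          refine lt_of_lt_of_le ?_ h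
          rw [hd, map_zero]
          exact_mod_cast Nat.succ_pos k
        simp [h0]
      · have hne : (Finset.univ.filter fun j => d j ≠ 0).Nonempty := by
          obtain ⟨j, hj⟩ := Finsupp.ne_iff.mp hd
          exact ⟨j, by simpa using hj⟩
        set j₀ := (Finset.univ.filter fun j => d j ≠ 0).min' hne with hj₀
        have hj₀mem : d j₀ ≠ 0 := by
          have := Finset.min'_mem _ hne
          rw [Finset.mem_filter] at this
          exact this.2
        have hj₀min : ∀ i < j₀, d i = 0 := by
          intro i hi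
          by_contra hdi
          have : j₀ ≤ i := Finset.min'_le _ _ (by simpa using hdi)
          exact absurd hi (not_lt.mpr this)
        rw [Finset.sum_eq_single j₀]
        · rw [if_pos ⟨hj₀mem, hj₀min⟩]
        · intro j _ hj
          rw [if_neg]
          rintro ⟨h1, h2⟩
          rcases lt_trichotomy j j₀ with h3 | h3 | h3
          · exact h1 (hj₀min j h3)
          · exact hj h3
          · exact hj₀mem (h2 j₀ h3)
        · intro h; exact absurd (Finset.mem_univ _) h
    rw [hsum, pow_succ']
    refine Ideal.sum_mem _ fun j _ => Ideal.mul_mem_mul (Ideal.subset_span ⟨j, rfl⟩) (ih ?_)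
    refine nat_le_order fun e he => ?_
    rw [hg]
    split_ifs with hif
    · apply coeff_of_lt_order
      refine lt_of_lt_of_le ?_ h
      rw [map_add, Finsupp.degree_single]
      exact_mod_cast Nat.succ_lt_succ he
    · rfl

/-- The maximal ideal of a power series ring over a field. -/
theorem maximalIdeal_eq_span [Finite σ] :
    IsLocalRing.maximalIdeal (MvPowerSeries σ L) =
      Ideal.span (Set.range (X : σ → MvPowerSeries σ L)) := by
  apply le_antisymm
  · intro f hf
    have h0 : constantCoeff f = 0 := by
      by_contra hne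
      have : IsUnit f := by
        rw [MvPowerSeries.isUnit_iff_constantCoeff]
        exact isUnit_iff_ne_zero.mpr hne
      exact (IsLocalRing.mem_maximalIdeal _).mp hf this
    have := mem_pow_of_le_order (k := 1) (f := f)
      (by simpa using one_le_order_iff_constCoeff_eq_zero.mpr h0)
    simpa using this
  · rw [Ideal.span_le]
    rintro _ ⟨j, rfl⟩
    rw [SetLike.mem_coe, IsLocalRing.mem_maximalIdeal, mem_nonunits_iff,
      MvPowerSeries.isUnit_iff_constantCoeff]
    simp

/-- Ideals of a power series ring over a field are closed. -/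
theorem mem_ideal_of_forall_order [Finite σ] (I : Ideal (MvPowerSeries σ L))
    (f : MvPowerSeries σ L)
    (h : ∀ k : ℕ, ∃ g ∈ I, (k : ℕ∞) ≤ (f - g).order) : f ∈ I := by
  have hH : IsHausdorff (IsLocalRing.maximalIdeal (MvPowerSeries σ L)) (MvPowerSeries σ L ⧸ I) :=
    inferInstance
  rw [← Ideal.Quotient.eq_zero_iff_mem]
  refine hH.haus _ fun k => ?_
  obtain ⟨g, hg, hk⟩ := h k
  have h1 : Ideal.Quotient.mk I f = Ideal.Quotient.mk I (f - g) := by
    rw [map_sub, Ideal.Quotient.eq_zero_iff_mem.mpr hg, sub_zero]
  rw [SModEq.zero, h1]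
  have h2 : f - g ∈ (IsLocalRing.maximalIdeal (MvPowerSeries σ L)) ^ k := by
    rw [maximalIdeal_eq_span]
    exact mem_pow_of_le_order hk
  have h3 : Ideal.Quotient.mk I (f - g) = (f - g) • (1 : MvPowerSeries σ L ⧸ I) :=
    Algebra.algebraMap_eq_smul_one (f - g)
  rw [h3]
  exact Submodule.smul_mem_smul h2 Submodule.mem_top

/-- Hadamard quotients. -/
theorem exists_hadamard [Fintype σ] (F : MvPowerSeries σ L) :
    ∃ H : σ → MvPowerSeries (σ ⊕ σ) L,
      subst (fun j => (X (Sum.inl j) : MvPowerSeries (σ ⊕ σ) L)) F -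
        subst (fun j => (X (Sum.inr j) : MvPowerSeries (σ ⊕ σ) L)) F =
      ∑ j, (X (Sum.inl j) - X (Sum.inr j)) * H j := by
  classical
  set I : Ideal (MvPowerSeries (σ ⊕ σ) L) :=
    Ideal.span (Set.range fun j => (X (Sum.inl j) - X (Sum.inr j) : MvPowerSeries (σ ⊕ σ) L)) with hI
  have hl : ∀ j, constantCoeff ((fun j => (X (Sum.inl j) : MvPowerSeries (σ ⊕ σ) L)) j) = 0 :=
    fun j => by simp
  have hr : ∀ j, constantCoeff ((fun j => (X (Sum.inr j) : MvPowerSeries (σ ⊕ σ) L)) j) = 0 :=
    fun j => by simp
  have hsl := hasSubst_of_constantCoeff_zero hl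
  have hsr := hasSubst_of_constantCoeff_zero hr
  have hpoly : ∀ p : MvPolynomial σ L,
      subst (fun j => (X (Sum.inl j) : MvPowerSeries (σ ⊕ σ) L)) (p : MvPowerSeries σ L) -
        subst (fun j => (X (Sum.inr j) : MvPowerSeries (σ ⊕ σ) L)) (p : MvPowerSeries σ L) ∈ I := by
    intro p
    rw [← substAlgHom_apply (R := L) hsl, ← substAlgHom_apply (R := L) hsr,
      ← Ideal.Quotient.eq]
    induction p using MvPolynomial.induction_on with
    | C r =>
      rw [MvPolynomial.coe_C]
      have e1 : (substAlgHom (R := L) hsl) (C r) = C r := (substAlgHom (R := L) hsl).commutes r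
      have e2 : (substAlgHom (R := L) hsr) (C r) = C r := (substAlgHom (R := L) hsr).commutes r
      rw [e1, e2]
    | add p q hp hq =>
      rw [MvPolynomial.coe_add, map_add, map_add, map_add, map_add, hp, hq]
    | mul_X p i hp =>
      rw [MvPolynomial.coe_mul, MvPolynomial.coe_X, map_mul, map_mul, map_mul, map_mul, hp]
      congr 1
      rw [substAlgHom_X, substAlgHom_X, Ideal.Quotient.eq]
      exact Ideal.subset_span ⟨i, rfl⟩
  have hmem : subst (fun j => (X (Sum.inl j) : MvPowerSeries (σ ⊕ σ) L)) F -
        subst (fun j => (X (Sum.inr j) : MvPowerSeries (σ ⊕ σ) L)) F ∈ I := by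
    refine mem_ideal_of_forall_order I _ fun k => ?_
    set q : MvPowerSeries σ L := ((F.truncTotal k : MvPolynomial σ L) : MvPowerSeries σ L) with hq
    refine ⟨_, hpoly (F.truncTotal k), ?_⟩
    have hFq : (k : ℕ∞) ≤ (F - q).order := by
      refine nat_le_order fun e he => ?_
      rw [map_sub, hq, MvPolynomial.coeff_coe, coeff_truncTotal _ he, sub_self]
    have e1 : (subst (fun j => (X (Sum.inl j) : MvPowerSeries (σ ⊕ σ) L)) F -
        subst (fun j => (X (Sum.inr j) : MvPowerSeries (σ ⊕ σ) L)) F) -
        (subst (fun j => (X (Sum.inl j) : MvPowerSeries (σ ⊕ σ) L)) q -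
        subst (fun j => (X (Sum.inr j) : MvPowerSeries (σ ⊕ σ) L)) q) =
        subst (fun j => (X (Sum.inl j) : MvPowerSeries (σ ⊕ σ) L)) (F - q) +
        - subst (fun j => (X (Sum.inr j) : MvPowerSeries (σ ⊕ σ) L)) (F - q) := by
      rw [subst_sub hsl, subst_sub hsr]; ring
    rw [e1]
    refine le_trans (le_min ?_ ?_) min_order_le_add
    · exact le_trans hFq (le_order_subst' hl _)
    · rw [order_neg]
      exact le_trans hFq (le_order_subst' hr _)
  rw [hI, Ideal.mem_span_range_iff_exists_fun] at hmem
  obtain ⟨c, hc⟩ := hmem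
  exact ⟨c, by rw [← hc]; exact Finset.sum_congr rfl fun j _ => mul_comm _ _⟩

/-- Hadamard quotients, substituted form, with the diagonal value. -/
theorem exists_hadamard' [Fintype σ] (F : MvPowerSeries σ L) :
    ∃ H : σ → MvPowerSeries (σ ⊕ σ) L,
      (∀ (τ : Type) [Finite τ] (θ θ' : σ → MvPowerSeries τ L), (∀ j, constantCoeff (θ j) = 0) →
        (∀ j, constantCoeff (θ' j) = 0) →
        subst θ F - subst θ' F = ∑ j, (θ j - θ' j) * subst (Sum.elim θ θ') (H j)) ∧
      (∀ (τ : Type) [Finite τ] (θ : σ → MvPowerSeries τ L), (∀ j, constantCoeff (θ j) = 0) →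
        ∀ j, subst (Sum.elim θ θ) (H j) = subst θ (pderiv L j F)) := by
  classical
  obtain ⟨H, hH⟩ := exists_hadamard F
  have hl : ∀ j, constantCoeff ((fun j => (X (Sum.inl j) : MvPowerSeries (σ ⊕ σ) L)) j) = 0 :=
    fun j => by simp
  have hr : ∀ j, constantCoeff ((fun j => (X (Sum.inr j) : MvPowerSeries (σ ⊕ σ) L)) j) = 0 :=
    fun j => by simp
  refine ⟨H, ?_, ?_⟩
  · intro τ _ θ θ' hθ hθ'
    have hc : ∀ k, constantCoeff ((Sum.elim θ θ') k) = 0 := by
      rintro (k | k)
      · exact hθ k
      · exact hθ' k
    have hs := hasSubst_of_constantCoeff_zero hc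
    have h1 := congrArg (substAlgHom (R := L) hs) hH
    rw [map_sub, map_sum] at h1
    simp only [map_mul, map_sub, substAlgHom_apply, subst_X hs, Sum.elim_inl, Sum.elim_inr] at h1
    rw [subst_subst' hl hc, subst_subst' hr hc] at h1
    simp only [subst_X hs, Sum.elim_inl, Sum.elim_inr] at h1
    exact h1
  · intro τ _ θ hθ j
    have h1 := congrArg (pderiv L (Sum.inl j)) hH
    rw [map_sub, pderiv_subst hl, pderiv_subst hr, map_sum] at h1
    have hX : ∀ k, pderiv L (Sum.inl j) (X (Sum.inl k) : MvPowerSeries (σ ⊕ σ) L) =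
        if k = j then 1 else 0 := by
      intro k
      split_ifs with hk
      · rw [hk, pderiv_X_self]
      · rw [pderiv_X_of_ne]
        intro h; exact hk (Sum.inl_injective h)
    have hX' : ∀ k, pderiv L (Sum.inl j) (X (Sum.inr k) : MvPowerSeries (σ ⊕ σ) L) = 0 := by
      intro k
      rw [pderiv_X_of_ne]
      exact Sum.inr_ne_inl
    simp only [hX, hX', mul_zero, Finset.sum_const_zero, sub_zero, mul_ite, mul_one,
      Finset.sum_ite_eq', Finset.mem_univ, if_true, Derivation.leibniz, smul_eq_mul, map_sub] at h1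
    have hc : ∀ k, constantCoeff ((Sum.elim θ θ) k) = 0 := by
      rintro (k | k)
      · exact hθ k
      · exact hθ k
    have hs := hasSubst_of_constantCoeff_zero hc
    have h2 := congrArg (substAlgHom (R := L) hs) h1
    rw [map_sum] at h2
    simp only [map_add, map_mul, map_sub, substAlgHom_apply, subst_X hs, Sum.elim_inl,
      Sum.elim_inr, sub_self, zero_mul, zero_add] at h2
    rw [subst_subst' hl hc] at h2
    simp only [subst_X hs, Sum.elim_inl] at h2
    rw [h2, Finset.sum_eq_single j]
    · rw [if_pos rfl]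
    · intro k _ hk
      rw [if_neg hk, subst_zero' hc]
    · intro h; exact absurd (Finset.mem_univ _) h

end ZEQ
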