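import Pool.Agent.ZEQ.Chain

/-!
# Vanishing of the partial derivatives at the intersection of two families
-/

namespace ZEQ

open MvPowerSeries

variable {σ τ υ : Type*} {L : Type*} [Field L]

theorem constantCoeff_subst' [Finite σ] {θ : σ → MvPowerSeries τ L}
    (hθ : ∀ i, constantCoeff (θ i) = 0) (h : MvPowerSeries σ L)
    (hh : constantCoeff h = 0) : constantCoeff (subst θ h) = 0 := by
  have h1 : (1 : ℕ∞) ≤ h.order := one_le_order_iff_constCoeff_eq_zero.mpr hh
  exact one_le_order_iff_constCoeff_eq_zero.mp (le_trans h1 (le_order_subst' hθ h))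

theorem subst_subst' [Finite σ] [Finite τ] {θ : σ → MvPowerSeries τ L}
    (hθ : ∀ i, constantCoeff (θ i) = 0) {ρ : τ → MvPowerSeries υ L}
    (hρ : ∀ i, constantCoeff (ρ i) = 0) (h : MvPowerSeries σ L) :
    subst ρ (subst θ h) = subst (fun i => subst ρ (θ i)) h := by
  have hs : HasSubst θ := hasSubst_of_constantCoeff_zero hθ
  have ht : HasSubst ρ := hasSubst_of_constantCoeff_zero hρ
  exact subst_comp_subst_apply hs ht h

/-- If the power series `h` vanishes on a family `θ`, then its differential vanishes on the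
derivatives of the family. -/
theorem sum_pderiv_eq_zero [Fintype σ] [Finite τ] {θ : σ → MvPowerSeries τ L}
    (hθ : ∀ i, constantCoeff (θ i) = 0) {ρ : τ → MvPowerSeries υ L}
    (hρ : ∀ i, constantCoeff (ρ i) = 0) (h : MvPowerSeries σ L)
    (h0 : subst θ h = 0) (a : τ) :
    ∑ i, subst (fun i => subst ρ (θ i)) (pderiv L i h) * subst ρ (pderiv L a (θ i)) = 0 := by
  have ht : HasSubst ρ := hasSubst_of_constantCoeff_zero hρ
  have h1 := pderiv_subst hθ a h
  rw [h0, map_zero] at h1
  have h2 := congrArg (subst (R := L) ρ) h1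
  rw [subst_zero' hρ] at h2
  rw [h2, ← substAlgHom_apply (R := L) ht, map_sum]
  refine Finset.sum_congr rfl fun i _ => ?_
  rw [map_mul, substAlgHom_apply, substAlgHom_apply, subst_subst' hθ hρ]

/-- Two families through a common point family whose tangent spaces together span everything: a
power series which vanishes on both families has vanishing partial derivatives there. -/
theorem pderiv_eq_zero_of_two_families [Fintype σ] [DecidableEq σ] {τ₁ τ₂ : Type*} [Finite τ₁]
    [Finite τ₂]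
    {θ₁ : σ → MvPowerSeries τ₁ L} (hθ₁ : ∀ i, constantCoeff (θ₁ i) = 0)
    {θ₂ : σ → MvPowerSeries τ₂ L} (hθ₂ : ∀ i, constantCoeff (θ₂ i) = 0)
    {ρ₁ : τ₁ → MvPowerSeries υ L} (hρ₁ : ∀ i, constantCoeff (ρ₁ i) = 0)
    {ρ₂ : τ₂ → MvPowerSeries υ L} (hρ₂ : ∀ i, constantCoeff (ρ₂ i) = 0)
    (hcomp : ∀ i, subst ρ₁ (θ₁ i) = subst ρ₂ (θ₂ i))
    (c : σ → τ₁ ⊕ τ₂)
    (hrank : (Matrix.of fun i j : σ => Sum.elim
      (fun a => subst ρ₁ (pderiv L a (θ₁ i))) (fun b => subst ρ₂ (pderiv L b (θ₂ i))) (c j)).det ≠ 0)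
    (h : MvPowerSeries σ L) (h1 : subst θ₁ h = 0) (h2 : subst θ₂ h = 0) (i : σ) :
    subst (fun i => subst ρ₁ (θ₁ i)) (pderiv L i h) = 0 := by
  classical
  set A : Matrix σ σ (MvPowerSeries υ L) := Matrix.of fun i j : σ => Sum.elim
      (fun a => subst ρ₁ (pderiv L a (θ₁ i))) (fun b => subst ρ₂ (pderiv L b (θ₂ i))) (c j) with hA
  set w : σ → MvPowerSeries υ L :=
    fun i => subst (fun i => subst ρ₁ (θ₁ i)) (pderiv L i h) with hw
  have hcomp' : (fun i => subst ρ₁ (θ₁ i)) = fun i => subst ρ₂ (θ₂ i) := funext hcomp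
  have hwA : Matrix.vecMul w A = 0 := by
    funext j
    rw [Matrix.vecMul, dotProduct, Pi.zero_apply]
    rcases hcj : c j with a | b
    · have := sum_pderiv_eq_zero hθ₁ hρ₁ h h1 a
      rw [← this]
      refine Finset.sum_congr rfl fun i _ => ?_
      rw [hA, Matrix.of_apply, hcj, Sum.elim_inl]
    · have := sum_pderiv_eq_zero hθ₂ hρ₂ h h2 b
      rw [← this]
      refine Finset.sum_congr rfl fun i _ => ?_
      rw [hA, Matrix.of_apply, hcj, Sum.elim_inr, hw, hcomp']
  have hw0 : w = 0 := Matrix.eq_zero_of_vecMul_eq_zero hrank hwA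
  exact congrFun hw0 i

end ZEQ
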